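import Mathlib
import Pool.Agent.Q78.FO.Open
import Pool.Agent.Q78.FO.Isolated

set_option autoImplicit false

/-!
# Isolated singularities at the base points: a bound for the superabundance in the plane

Let `L` be the system of the plane curves of degree `d` with multiplicity at least `m 1, …, m h` at
`h` general points, and let `Y` be a finite set of numbers such that every multiplicity `m i ≥ 2`
is one of the numbers `y` and `y - 1`, `y ∈ Y`, for instance the set of the different
multiplicities. If some member of `L` has isolated singularities at the points `P i` with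
`m i ≥ 2`, then `dim L ≤ virtdim L + ∑ binom (y - 1) 2` (sum over `Y`). So the conclusion of the
question (for `n = 2`, all degrees, all multiplicities, all numbers of points) holds up to a number
which depends only on the different multiplicities.

The proof works with generic points over a field `K` of characteristic zero. If the leading forms at
`P i` of the members with multiplicity `m i - 1` at `P i` (and `m j` at the other points) are
spanned by one form, then the leading forms of degree `m i` of the members of `L` are killed by the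
derivative in some direction `v`. The derivation of `K` which moves `P i` in the direction `v` and
fixes the other points then maps `L` into itself. So `L` has a basis over the field of constants of
the derivation, and the curve over the constants which contains `P i` is contained in all the
members with multiplicity `m i`: no member has an isolated singularity at `P i`. If there are always
two independent leading forms, then the bound follows, since the spaces of leading forms grow
whenever the multiplicities of suitable other points are lowered.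
-/

namespace Pool.Agent.Results.MP_0b14b0_ag.PlaneDistinctMultiplicities

open MvPolynomial
open Pool.Agent.Q78.FO (IsolatedAt)

/-- The space of the forms of degree `d` in three variables `X 0, X 1, X 2` which vanish to order
at least `m i` at the point `(1 : P i 0 : P i 1)` for every `i`. -/
noncomputable def system {h : ℕ} (P : Fin h → Fin 2 → ℂ) (d : ℕ) (m : Fin h → ℕ) :
    Submodule ℂ (MvPolynomial (Fin 3) ℂ) :=
  homogeneousSubmodule (Fin 3) ℂ d ⊓
    Submodule.restrictScalars ℂ
      (⨅ i : Fin h, (Ideal.span ({X 1 - C (P i 0) * X 0, X 2 - C (P i 1) * X 0} :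
        Set (MvPolynomial (Fin 3) ℂ))) ^ (m i))

/-- The dimension of the linear system, `-1` if it is empty. -/
noncomputable def dimL {h : ℕ} (P : Fin h → Fin 2 → ℂ) (d : ℕ) (m : Fin h → ℕ) : ℤ :=
  (Module.finrank ℂ ↥(system P d m) : ℤ) - 1

/-- The virtual dimension. -/
def virtdim {h : ℕ} (d : ℕ) (m : Fin h → ℕ) : ℤ :=
  ((d + 2).choose 2 : ℤ) - 1 - ∑ i, ((m i + 1).choose 2 : ℤ)

/-- Every multiplicity which is at least `2` is one of the numbers `y` and `y - 1` for an element
`y` of `Y`. -/
def Adapted {h : ℕ} (Y : Finset ℕ) (m : Fin h → ℕ) : Prop :=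
  ∀ i, 2 ≤ m i → m i ∈ Y ∨ m i + 1 ∈ Y

/-- The sum of the numbers `binom (y - 1) 2` over `y ∈ Y`. -/
def bound (Y : Finset ℕ) : ℤ := ∑ y ∈ Y, ((y - 1).choose 2 : ℤ)

theorem system_eq {h : ℕ} (P : Fin h → Fin 2 → ℂ) (d : ℕ) (m : Fin h → ℕ) :
    system P d m = Pool.Agent.H932R5.Vd (K := ℂ) (E := 1) d m P := by
  have h1 : ∀ i, (Ideal.span ({X 1 - C (P i 0) * X 0, X 2 - C (P i 1) * X 0} :
      Set (MvPolynomial (Fin 3) ℂ))) = Pool.Agent.H932R5.hI (K := ℂ) (E := 1) (P i) := by
    intro i
    unfold Pool.Agent.H932R5.hI
    congr 1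
    ext f
    constructor
    · rintro (rfl | rfl)
      · exact ⟨0, rfl⟩
      · exact ⟨1, rfl⟩
    · rintro ⟨j, rfl⟩
      fin_cases j
      · exact Or.inl rfl
      · exact Or.inr rfl
  unfold system Pool.Agent.H932R5.Vd
  simp only [h1]

theorem result (h d : ℕ) (m : Fin h → ℕ) :
    ∃ F : MvPolynomial (Fin h × Fin 2) ℂ, F ≠ 0 ∧
      ∀ P : Fin h → Fin 2 → ℂ,
        MvPolynomial.eval (fun ij : Fin h × Fin 2 => P ij.1 ij.2) F ≠ 0 →
        (∃ D ∈ system P d m, D ≠ 0 ∧ ∀ i, 2 ≤ m i → IsolatedAt D ![1, P i 0, P i 1]) →
        ∀ Y : Finset ℕ, Adapted Y m → dimL P d m ≤ virtdim d m + bound Y := by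
  obtain ⟨F, hF, hall⟩ := Pool.Agent.Q78.FO.general_segre h m d
  refine ⟨F, hF, fun P hP ⟨D, hD, hD0, hiso⟩ Y hY => ?_⟩
  by_contra hbig
  rw [not_le] at hbig
  have hdim : dimL P d m =
      (Module.finrank ℂ ↥(Pool.Agent.H932R5.Vd (K := ℂ) (E := 1) d m P) : ℤ) - 1 := by
    unfold dimL
    rw [system_eq]
  have hvirt : virtdim d m = Pool.Agent.Q78.GW.nv 1 m d - 1 := by
    unfold virtdim Pool.Agent.Q78.GW.nv
    ring
  have hne : Module.finrank ℂ ↥(Pool.Agent.H932R5.Vd (K := ℂ) (E := 1) d m P) ≠ 0 := by
    intro h0
    have hfin : FiniteDimensional ℂ ↥(Pool.Agent.H932R5.Vd (K := ℂ) (E := 1) d m P) := by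
      have h1 : Pool.Agent.H932R5.Vd (K := ℂ) (E := 1) d m P ≤
          homogeneousSubmodule (Fin 3) ℂ d := by
        rw [← system_eq]
        exact inf_le_left
      have h2 : FiniteDimensional ℂ ↥(homogeneousSubmodule (Fin 3) ℂ d) := inferInstance
      exact Submodule.finiteDimensional_of_le h1
    have h3 := Submodule.finrank_eq_zero.1 h0
    rw [system_eq, h3] at hD
    exact hD0 ((Submodule.mem_bot ℂ).1 hD)
  rw [hdim, hvirt] at hbig
  unfold bound at hbig
  obtain ⟨i, hi, c, H, hc, hH, hH0, hHi, hdvd⟩ := hall P hP hne Y hY (by linarith)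
  rw [system_eq] at hD
  have h4 : H ^ 2 ∣ D := (pow_dvd_pow H hi).trans (hdvd D hD)
  refine Pool.Agent.Q78.FO.not_isolated h4 hH0 (P i 0) (P i 1) ?_ (hiso i hi)
  rw [← hHi]
  congr 1
  refine congrArg _ (funext fun j => ?_)
  fin_cases j <;> rfl

end Pool.Agent.Results.MP_0b14b0_ag.PlaneDistinctMultiplicities
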